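import Pool.Agent.Helper81.HG.Main

/-!
# Both questions of Bloch and Soulé: the hierarchy by dimension

Over `ℤ/m` (over `ℤ` if `m = 0`, over `𝔽_p` if `m = p`), for each `n ≥ 1`, the ten classes of
schemes of `Level m n` control each other: for each `X` in one of them there are finitely many
members of another such that the meromorphic continuation of their zeta functions implies that
of the zeta function of `X`, and such that both questions for them imply both questions for `X`.
The three classes of `HalfLevel m n` control those of `Level m n`; the quadratic forms among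
them control the other two, and `Level m (n + 1)` controls the double covers of `𝔸^n`.
-/

set_option autoImplicit false

open AlgebraicGeometry CategoryTheory
open Pool.Agent.Helper81.HG

namespace Pool.Agent.Results.MP_666bea_ag.GradedHierarchy

universe u

theorem result (m : ℕ) :
    (∀ X : Scheme.{0}, (∃ f : X ⟶ Spec (CommRingCat.of (ZMod m)),
      LocallyOfFiniteType f ∧ QuasiCompact f) → ∃ n, X ∈ FibreDimLT m n) ∧
    ∀ n, 0 < n →
      (∀ 𝒞 ∈ Level m n, ∀ 𝒞' ∈ Level m n ∪ HalfLevel m n, Controls.{u} 𝒞' 𝒞) ∧
      (∀ 𝒞 ∈ HalfLevel m n, Controls.{u} (QuadraticForms m n) 𝒞) ∧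
      (∀ 𝒞' ∈ Level m (n + 1), Controls.{u} 𝒞' (DoubleCover m n)) ∧
      (∀ X ∈ Trilinear m n 1, ∀ f : X ⟶ Spec (CommRingCat.of (ZMod m)), Smooth f) := by
  refine ⟨exists_fibreDim m, fun n hn => ?_⟩
  exact ⟨(main m n hn).1, (main m n hn).2.1, (main m n hn).2.2, smooth_trilinear m n⟩

end Pool.Agent.Results.MP_666bea_ag.GradedHierarchy
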