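import Pool.Agent.Sym3.Main3

/-!
# Both questions of Bloch and Soulé: reduction to graph hypersurfaces

Over `ℤ/N` (over `ℤ` if `N = 0`, over `𝔽_p` if `N = p`), the hypersurfaces of the first Symanzik
polynomials `∑_T ∏_{e ∉ T} x_e` (`T` the spanning trees) of the connected simple graphs of maximum
degree at most three, the graphs of `φ³` theory, and of large girth control all schemes of finite
type: for each scheme `X` of finite type there are finitely many such graphs such that the
meromorphic continuation of the zeta functions of their hypersurfaces implies that of the zeta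
function of `X`, and such that both questions for their hypersurfaces imply both questions for
`X`. The same holds for the Kirchhoff polynomials `∑_T ∏_{e ∈ T} x_e`. The bound three is the
threshold for both polynomials: the hypersurfaces of the connected simple graphs of maximum degree
at most two are controlled by the point `Spec ℤ/N`.
-/

set_option autoImplicit false

open AlgebraicGeometry
open Pool.Agent.Helper81.HG (Zeros Controls)
open Pool.Agent.Helper45.RM (FiniteType)

namespace Pool.Agent.Results.MP_666bea_ag.GraphHypersurfaces

universe u

/-- The set `T` of edges of `G` is (the edge set of) a spanning tree of `G`. -/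
def IsSpanningTree {V : Type} (G : SimpleGraph V) (T : Finset G.edgeSet) : Prop :=
  (SimpleGraph.fromEdgeSet (Subtype.val '' (T : Set G.edgeSet))).IsTree

open Classical in
/-- The first Symanzik polynomial of `G`: the sum over the spanning trees `T` of `G` of the product
of the variables `x_e`, `e ∉ T`. -/
noncomputable def symanzik {V : Type} [Fintype V] (G : SimpleGraph V) :
    MvPolynomial G.edgeSet ℤ :=
  ∑ T : Finset G.edgeSet, if IsSpanningTree G T then ∏ e ∈ Tᶜ, MvPolynomial.X e else 0

open Classical in
/-- The Kirchhoff polynomial of `G`: the sum over the spanning trees `T` of `G` of the product of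
the variables `x_e`, `e ∈ T`. -/
noncomputable def kirchhoff {V : Type} [Fintype V] (G : SimpleGraph V) :
    MvPolynomial G.edgeSet ℤ :=
  ∑ T : Finset G.edgeSet, if IsSpanningTree G T then ∏ e ∈ T, MvPolynomial.X e else 0

/-- The Symanzik hypersurfaces over `ℤ/N`: the zero schemes of the first Symanzik polynomials in
affine space over `ℤ/N` with one coordinate for each edge, for the finite connected simple graphs
in which each vertex has at most `d` neighbours and each cycle has length at least `g`. -/
def SymanzikHypersurface (N d g : ℕ) : Set Scheme.{0} :=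
  {Y | ∃ (V : Type) (_ : Fintype V) (G : SimpleGraph V), G.Connected ∧
    (∀ v, (G.neighborSet v).ncard ≤ d) ∧ (g : ℕ∞) ≤ G.egirth ∧ Y = Zeros N {symanzik G}}

/-- The Kirchhoff hypersurfaces over `ℤ/N`: the zero schemes of the Kirchhoff polynomials in affine
space over `ℤ/N` with one coordinate for each edge, for the finite connected simple graphs in
which each vertex has at most `d` neighbours and each cycle has length at least `g`. -/
def KirchhoffHypersurface (N d g : ℕ) : Set Scheme.{0} :=
  {Y | ∃ (V : Type) (_ : Fintype V) (G : SimpleGraph V), G.Connected ∧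
    (∀ v, (G.neighborSet v).ncard ≤ d) ∧ (g : ℕ∞) ≤ G.egirth ∧ Y = Zeros N {kirchhoff G}}

/-- The point `Spec ℤ/N`, as the closed subscheme without equations of affine space of dimension
zero over `ℤ/N`. -/
def Point (N : ℕ) : Set Scheme.{0} :=
  {Zeros N (∅ : Set (MvPolynomial Empty ℤ))}

theorem result (N g : ℕ) :
    Controls.{u} (SymanzikHypersurface N 3 g) (FiniteType N) ∧
      Controls.{u} (KirchhoffHypersurface N 3 g) (FiniteType N) ∧
      Controls.{u} (Point N) (SymanzikHypersurface N 2 0) ∧
      Controls.{u} (Point N) (KirchhoffHypersurface N 2 0) := by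
  refine ⟨Pool.Agent.Sym3.main_symanzik3 N g, Pool.Agent.KB.main_girth N g, ?_, ?_⟩
  · rintro _ ⟨V, i, G, hc, hd, -, rfl⟩
    exact Pool.Agent.Sym3.main_two N _ ⟨V, i, G, hc, hd, Or.inl rfl⟩
  · rintro _ ⟨V, i, G, hc, hd, -, rfl⟩
    exact Pool.Agent.Sym3.main_two N _ ⟨V, i, G, hc, hd, Or.inr rfl⟩

end Pool.Agent.Results.MP_666bea_ag.GraphHypersurfaces
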