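import Pool.Agent.HW4.Q1

/-!
# Zeta functions of schemes and the `L`-functions of single cohomology groups

Let `N` be a natural number. A scheme `X` of finite type over `ℤ`, without points in the
characteristics which divide `N`, is pure over `ℤ[1/N]` if there are finitely many Frobenius
eigenvalues `A p j` of absolute value `p ^ (wt j / 2)` for each prime `p` which does not divide `N`,
with weights `wt j` which do not depend on `p`, such that the number of points over the field with
`p ^ k` elements is `∑ j, (-1) ^ wt j * A p j ^ k`. By Deligne all smooth projective schemes over
`ℤ[1/N]` are pure, and the eigenvalues of weight `w` are those of Frobenius on `H^w`.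

Theorem. If the zeta functions of all schemes of finite type over `ℤ` continue meromorphically
(question Q1), then so does the `L`-function `L(H^w(X), s)` of each single weight `w` of each pure
scheme `X`. By theorems of Hironaka, Deligne and Dwork (two explicit hypotheses here) the converse
holds, so Q1 is equivalent to the continuation of these `L`-functions.

More precisely the following are equivalent for each `N`: the zeta functions of all pure schemes over
`ℤ[1/N]` continue; the `L`-functions of their single weights continue; the `L`-functions of all
polynomials in the eigenvalues of several pure schemes which are symmetric in the eigenvalues of each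
weight of each scheme (tensor products, Schur functors) continue. The same holds for one family of
pure schemes `X_i` (for instance for one scheme `X`): the zeta functions of all schemes built from the
`X_i` by disjoint unions, products, products with the affine line and symmetric powers continue if
and only if the `L`-functions of all symmetric polynomials in the eigenvalues of the `X_i` do; these
contain all `L(H^w(X_i), s)`.

Moreover, without any assumption, each of these `L`-functions is on each half-plane
`K < Re s` the product of `zeta Y (s + j) / zeta Z (s + j)`, `Y` and `Z` pure schemes built from the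
`X_i`, and of a holomorphic function without zeros.

Proof. Let `R` be the ring of the functions `(a - b) / n ^ j` on the prime powers `n` prime to `N`,
where `a`, `b` count points of schemes built from the `X_i`, and let `Rhat` be its completion for the
topology given by the size: `c` is in `Rhat` if for each `k` some `r` in `R` has
`c - r = O(n ^ (-k))`. The generating function `∑ #Sym^m(X) t ^ m = ∏_w P_w(t) ^ ((-1) ^ (w + 1))`
has coefficients in `R`, since the quotient of the affine scheme `X ^ m` by the symmetric group is a
pure scheme. If `F = P U` has coefficients in `Rhat`, where `P` is a polynomial of degree `b` and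
weight `w` whose top coefficient has absolute value `n ^ (w b / 2)`, and the coefficients of `U` have
weights at most `(w - 1) m`, then `P` and `U` have coefficients in `Rhat`: the factorisation of a
power series by slopes. By descending induction on the weight all `P_w` have coefficients in `Rhat`.

The slope factorisation and its use for the `L`-functions of single weights and of symmetric
functions are due to helper3; the form of the completed ring and the unconditional factorisation to
helper7; points of symmetric powers: helper80, helper9, helper96, helper3; counting functions and
Euler products: helper88, helper80; symmetric polynomials in several blocks of variables and schemes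
built from a family: helper96; zeta functions: helper29, helper81.
-/

set_option autoImplicit false

open AlgebraicGeometry

namespace Pool.Agent.Results.MP_666bea_ag.HasseWeil

open Pool.Agent.HW3 Pool.Agent.HW4

theorem result :
    -- (1) if the zeta functions of all schemes of finite type over `ℤ` continue, then so do the
    -- `L`-functions of the single weights of all pure schemes
    ((∀ X : Scheme.{0}, FiniteTypeZ X → Continues (zeta X)) →
      ∀ (N : ℕ) (X : Scheme.{0}) (J : Type) [Fintype J] (wt : J → ℕ) (A : ℕ → J → ℂ),
        Weights N X wt A → ∀ w, Continues (LWeight N wt A w)) ∧
    -- (2) the converse, by theorems of Hironaka, Deligne and Dwork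
    (HironakaDeligne → Dwork →
      (∀ (N : ℕ) (X : Scheme.{0}) (J : Type) [Fintype J] (wt : J → ℕ) (A : ℕ → J → ℂ),
        Weights N X wt A → ∀ w, Continues (LWeight N wt A w)) →
      ∀ X : Scheme.{0}, FiniteTypeZ X → Continues (zeta X)) ∧
    ∀ N : ℕ,
      -- (3) the same over `ℤ[1/N]`, without assumptions: these are equivalent
      List.TFAE [
        -- the zeta functions of all pure schemes over `ℤ[1/N]` continue
        ∀ X : Scheme.{0}, Pure N X → Continues (zeta X),
        -- the `L`-functions of their single weights continue
        ∀ (X : Scheme.{0}) (J : Type) [Fintype J] (wt : J → ℕ) (A : ℕ → J → ℂ),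
          Weights N X wt A → ∀ w, Continues (LWeight N wt A w),
        -- the `L`-functions of all symmetric polynomials in the eigenvalues of several of them do
        ∀ (F : Family N) (f : MvPolynomial F.V ℤ), F.Symmetric f →
          Continues (LPoly N F.eig f)] ∧
      ∀ F : Family N,
        -- (4) the same for one family of pure schemes
        ((∀ Y, F.BuiltFrom Y → Continues (zeta Y)) ↔
          ∀ f : MvPolynomial F.V ℤ, F.Symmetric f → Continues (LPoly N F.eig f)) ∧
        -- (5) up to holomorphic functions without zeros on half-planes, these `L`-functions are
        -- quotients of zeta functions of schemes built from the family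
        ∀ f : MvPolynomial F.V ℤ, F.Symmetric f → ∀ K : ℝ,
          ∃ (Y Z : Scheme.{0}) (j : ℕ) (E : ℂ → ℂ),
            (Pure N Y ∧ F.BuiltFrom Y) ∧ (Pure N Z ∧ F.BuiltFrom Z) ∧
            AnalyticOnNhd ℂ E {s | K < s.re} ∧ (∀ s : ℂ, K < s.re → E s ≠ 0) ∧
            ∃ σ : ℝ, ∀ s : ℂ, σ < s.re →
              LPoly N F.eig f s * zeta Z (s + j) = E s * zeta Y (s + j) := by
  have main : ∀ N : ℕ, List.TFAE [
      ∀ X : Scheme.{0}, Pure N X → Continues (zeta X),
      ∀ (X : Scheme.{0}) (J : Type) [Fintype J] (wt : J → ℕ) (A : ℕ → J → ℂ),
        Weights N X wt A → ∀ w, Continues (LWeight N wt A w),
      ∀ (F : Family N) (f : MvPolynomial F.V ℤ), F.Symmetric f →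
        Continues (LPoly N F.eig f)] := by
    intro N
    tfae_have 1 → 3 := by
      intro h F f hf
      exact continues_lpoly (P := PP N fun _ => True) (fun Y hY => h Y hY.pure.1)
        (fun i => weil_of_weights (F.weights i)) (hat_family F _ fun _ => trivial) f hf
    tfae_have 3 → 2 := by
      intro h
      refine three_two fun I _ X J _ wt A hW f hf => ?_
      exact h ⟨I, X, J, wt, A, hW⟩ f hf
    tfae_have 2 → 1 := two_one
    tfae_finish
  refine ⟨fun h N => ?_, fun hHD hD h => ?_, fun N => ⟨main N, fun F => ⟨⟨?_, fam_back F⟩, ?_⟩⟩⟩
  · refine ((main N).out 0 1).1 fun X hX => h X ?_
    obtain ⟨J, _, wt, A, hW⟩ := hX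
    exact hW.finite_type
  · exact q1_of_pure hHD hD fun N _ => ((main N).out 0 1).2 (h N)
  · intro h f hf
    exact continues_lpoly (P := PP N (BuiltP N F.X))
      (fun Y hY => h Y (builtFrom_of_inClass F hY.pure.2))
      (fun i => weil_of_weights (F.weights i)) (hat_family F _ builtP_ptCount) f hf
  · intro f hf K
    obtain ⟨Y, Z, j, E, h1, h2, h3⟩ := core (P := PP N (BuiltP N F.X))
      (fun i => weil_of_weights (F.weights i)) (hat_family F _ builtP_ptCount) f hf K
    exact ⟨Y, Z, j, E, ⟨h1.pure.1, builtFrom_of_inClass F h1.pure.2⟩,
      ⟨h2.pure.1, builtFrom_of_inClass F h2.pure.2⟩, h3⟩

end Pool.Agent.Results.MP_666bea_ag.HasseWeil
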