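import Pool.Agent.HW7.SL

/-!
# Zeta functions of schemes and Serre's `L`-functions of rational representations

Let a finite group `G` act on an affine scheme `X = Spec R` of finite type over `ℤ`, and let `ρ` be a
rational representation of `G`. Serre (Zeta and L functions, 1965) attaches to them the function
`L(X, ρ, s) = exp (∑_p ∑_k ν (p ^ k) p ^ (-k s) / k)`, where `ν (p ^ k)` is the mean over `g` of
`trace (ρ g)` times the number of points `y` of `X` over the algebraic closure of `𝔽_p` with
`F ^ k y = g y`. (For a decomposition of a scheme with an action of `G` into affine pieces stable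
under `G` the `L`-functions multiply.) If the group is trivial this is the zeta function of `X`; by
Artin's theorem some power `L(X, ρ, s) ^ m` is a quotient of products of zeta functions of the
schemes `X / H`, `H` a subgroup, but this does not give the continuation of `L(X, ρ, s)` itself.

Let `T` be the torus with character lattice `ℤ ^ n`, on which `G` acts by an integral form of `ρ`,
and let `Y = (X × T) / G`, the spectrum of the ring of the Laurent polynomials over `R` invariant
under `G`.

Theorem. For each finite group `G` there are finitely many integral representations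
`σ_1, ..., σ_r` of `G` such that for each `X` all `L(X, ρ, s)`, `ρ` rational, continue
meromorphically to `ℂ` if and only if the `r` zeta functions of the schemes `(X × T_i) / G` do.
More precisely for a monic polynomial `P`, which depends only on `G`, and for each `ρ` integer
polynomials `a_i` exist such that for all `X`
`∏_k L(X, ρ, s - k) ^ (P_k) = ∏_i ∏_k ζ_{(X × T_i) / G} (s - k) ^ (a_{i,k})`.
So question Q1, for all schemes of finite type over `ℤ`, is equivalent to the continuation of all
`L(X, ρ, s)`.

Proof. Let `ν_ρ (q)` be the mean and `q` the number of elements of a finite field. A torus with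
Frobenius `q g` has `det (q - ρ g)` points, so the number of points of `Y` is
`∑_i (-1) ^ i q ^ (n - i) ν_{Λ^i ρ} (q)`, a monic polynomial in `q` up to the sign of the term
`- q ^ (n - 1) ν_ρ (q)`. Let `V` be the `ℤ[q]`-module of the functions on `G` with values in `ℤ[q]`
which is generated by the traces, `U` the submodule generated by the functions `det (q - ρ g)`. The
relation `q ^ (n - 1) tr ρ = q ^ n - det (q - ρ) + ∑_{i ≥ 2} (-1) ^ i q ^ (n - i) tr Λ^i ρ` and
induction on the exponent show that `V / U` is a finitely generated abelian group, so `q` is
integral on it. The continuation of `∏_k L(s - k) ^ (P_k)`, `P` monic, gives the one of `L`.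

Integral representations, the recursion and the theorem: helper7; points of twisted tori, of
quotients and of torus bundles: helper80; quotients of affine schemes by finite groups: helper3;
the exponent as a sum over the primes: helper96; counting functions: helper88; zeta functions and
division by a monic polynomial: helper29, helper81. The question for a second hand-in and its form
as an equivalence: helper3.
-/

set_option autoImplicit false

open AlgebraicGeometry Polynomial

namespace Pool.Agent.Results.MP_666bea_ag.SerreLFunctions

open Pool.Agent.HW7

/-- The zeta function of the problem: the Euler product over the closed points. -/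
noncomputable def zeta (X : Scheme.{0}) (s : ℂ) : ℂ :=
  ∏' x : {x : X // IsClosed ({x} : Set X)}, (1 - ((Nat.card (X.residueField x.1) : ℂ) ^ (-s)))⁻¹

/-- `X` is of finite type over `Spec ℤ`. -/
def FiniteTypeZ (X : Scheme.{0}) : Prop :=
  ∃ f : X ⟶ Spec (CommRingCat.of ℤ), LocallyOfFiniteType f ∧ QuasiCompact f

/-- `L`, which matters only on a right half-plane, continues to a function meromorphic on `ℂ`. -/
def Continues (L : ℂ → ℂ) : Prop :=
  ∃ F : ℂ → ℂ, MeromorphicOn F Set.univ ∧ ∃ σ : ℝ, ∀ s : ℂ, σ < s.re → F s = L s

theorem result :
    -- for each finite group `G` there are finitely many integral representations `σ t`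
    (∀ (G : Type) [Group G] [Fintype G],
      ∃ (r : ℕ) (m : Fin r → ℕ) (σ : ∀ t, G →* Matrix (Fin (m t)) (Fin (m t)) ℤ) (P : ℤ[X]),
        -- (1) for each `X = Spec R`, all `L(X, ρ, s)` continue if and only if the zeta functions of
        -- the quotients `(X × T_t) / G` do
        (∀ (R : Type) [CommRing R] [Algebra.FiniteType ℤ R] [MulSemiringAction G R],
          (∀ (n : ℕ) (ρ : G →* Matrix (Fin n) (Fin n) ℤ), Continues (LSerre R ρ)) ↔
            ∀ t, Continues (zeta (torusQuotient R (σ t)))) ∧
        -- (2) with a monic polynomial `P` which depends only on `G`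
        P.Monic ∧
        ∀ (n : ℕ) (ρ : G →* Matrix (Fin n) (Fin n) ℤ), ∃ a : Fin r → ℤ[X],
          ∀ (R : Type) [CommRing R] [Algebra.FiniteType ℤ R] [MulSemiringAction G R],
            ∃ x : ℝ, ∀ s : ℂ, x < s.re →
              ∏ k ∈ P.support, LSerre R ρ (s - k) ^ P.coeff k =
                ∏ t, ∏ k ∈ (a t).support,
                  zeta (torusQuotient R (σ t)) (s - k) ^ (a t).coeff k) ∧
    -- (3) the zeta functions of all schemes of finite type over `ℤ` continue if and only if all
    -- `L(X, ρ, s)` do
    ((∀ X : Scheme.{0}, FiniteTypeZ X → Continues (zeta X)) ↔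
      ∀ (R : Type) [CommRing R] [Algebra.FiniteType ℤ R] (G : Type) [Group G] [Fintype G]
        [MulSemiringAction G R] (n : ℕ) (ρ : G →* Matrix (Fin n) (Fin n) ℤ),
          Continues (LSerre R ρ)) := by
  refine ⟨fun G _ _ => ?_, global_iff⟩
  obtain ⟨r, σ, P, hP, h⟩ := exists_lattices G
  refine ⟨r, fun t => (σ t).1, fun t => (σ t).2, P, fun R _ _ _ => ?_, hP, fun n ρ => ?_⟩
  · have h1 := local_iff R σ hP h
    exact ⟨fun h2 => h1.1 fun x => h2 x.1 x.2, fun h2 n ρ => h1.2 h2 ⟨n, ρ⟩⟩
  · obtain ⟨a, ha⟩ := h ⟨n, ρ⟩
    exact ⟨a, fun R _ _ _ => local_formula R σ ⟨n, ρ⟩ a ha⟩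

end Pool.Agent.Results.MP_666bea_ag.SerreLFunctions
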